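import Pool.Agent.H39.Newt3.Base

/-!
# Project NEWTON4 (MP_432c1b_ag): simplicial facets and ARBITRARY coefficients

Plan: /team-store/NEWTON4_PLAN.md. The modules of NEWTON3 with `Lcl a α` instead of a recurrence.
-/

set_option autoImplicit false

namespace Pool.Newt4

open MvPolynomial Pool.Agent.H39.MonoR Pool.Agent.H75.Mono Pool.Newt Pool.Newt2 Pool.Newt3

section Defs

variable {σ I : Type} [Fintype σ] [Fintype I]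

/-- `S ∪ T` is not contained in the face of a rigid weight of ratio at least `-α` -/
def Nfc (a : I → σ → ℕ) (α : ℚ) (T S : Finset I) : Prop :=
  ∀ w : σ → ℕ, Rigid a w → 0 < Nw a w → -α * (Nw a w : ℚ) ≤ ((∑ l, w l : ℕ) : ℚ) →
    ¬ ∀ i, i ∈ S ∨ i ∈ T → i ∈ face a w

/-- the local form of the functional equation at all real points `t0` -/
def Lcl (a : I → σ → ℕ) (α : ℚ) : Prop :=
  ∀ (t0 : I → ℝ), ∑ i, t0 i = α → ∀ (W : Finset σ), (∀ l ∈ W, ∑ i, (a i l : ℝ) * t0 i = -1) →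
    ∀ T : Finset I, (∀ i, i ∉ T → ∃ m : ℕ, t0 i = -m) →
    (∏ i ∈ Zr t0 0, X i : MvPolynomial I ℂ) ∈ Ideal.span
      (({g | ∃ κ ∈ Ker a, κ ≠ 0 ∧ g = ∏ i ∈ Zr t0 κ, X i} ∪
        {g | ∃ δ : I → ℤ, ∑ i, δ i = 1 ∧ g = (∏ i ∈ Zr t0 δ, X i) *
          ∏ l ∈ W.filter (fun l => 0 < ∑ i, δ i * (a i l : ℤ)), lfC (fun i => (a i l : ℤ))}) ∪
        {g | ∃ S : Finset I, Nfc a α T S ∧ g = ∏ i ∈ S, X i})

open Classical in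
/-- `1 / y!`, zero unless all `y_i ≥ 0` -/
noncomputable def ifac (y : I → ℤ) : ℚ :=
  if ∀ i, 0 ≤ y i then (∏ i, (((y i).toNat.factorial : ℕ) : ℚ))⁻¹ else 0

end Defs

/-! ### b-side -/

/-- LCL: the generic case (from POL of Newt and LCR of Newt3) -/
def SLcl : Prop :=
  ∀ (σ I : Type) [Fintype σ] [Fintype I] (a : I → σ → ℕ) (α : ℚ) (K : ℕ),
    Nonempty (Rec a ∅ α K) → Fintype.card I < K → Lcl a α

/-- LCI: the comparison of coefficients, divided by `n!`, at an integral point `t` -/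
def SLci : Prop :=
  ∀ (σ I : Type) [Fintype σ] [Fintype I] (k : Type) [Field k] [CharZero k] (a : I → σ → ℕ)
    (c : I → k), (∀ i, c i ≠ 0) → ∀ (b : Polynomial k) (Γ : Finset (σ → ℤ))
    (r : (σ → ℤ) → MvPolynomial (Option σ) k), CofId a c b Γ r → ∀ (t : I → ℤ) (n : ℕ),
    ∑ i, t i = n → ∀ Dk Dd : Finset (I → ℤ), (∀ κ ∈ Dk, κ ∈ Ker a) →
    (∀ κ ∈ Ker a, (∀ i, 0 ≤ t i + κ i) → κ ∈ Dk) →
    (∀ δ ∈ Dd, ∑ i, δ i = 1 ∧ (fun l => -∑ i, δ i * (a i l : ℤ)) ∈ Γ) →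
    (∀ δ : I → ℤ, ∑ i, δ i = 1 → (fun l => -∑ i, δ i * (a i l : ℤ)) ∈ Γ →
      (∀ i, 0 ≤ t i + δ i) → δ ∈ Dd) →
    b.eval (n : k) * ∑ κ ∈ Dk, (∏ i, c i ^ κ i) * ((ifac (fun i => t i + κ i) : ℚ) : k) =
      ((n : k) + 1) * ∑ δ ∈ Dd, (∏ i, c i ^ δ i) * ((ifac (fun i => t i + δ i) : ℚ) : k) *
        (((eval (fun i => (t i : ℚ)) (dd a δ) : ℚ) : k) *
          eval (fun o => Option.elim o (n : k) (fun l => ∑ i, ((t i : k) + (δ i : k)) * (a i l : k)))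
            (r (fun l => -∑ i, δ i * (a i l : ℤ))))

/-- LCF: finitely many shifts -/
def SLcf : Prop :=
  ∀ (σ I : Type) [Fintype σ] [Fintype I] [Nonempty I] (a : I → σ → ℕ) (w : σ → ℕ),
    (∀ κ ∈ Ker a, (∀ i, i ∉ face a w → κ i = 0) → κ = 0) → ∀ (s : ℤ) (γ : σ → ℤ),
    {δ : I → ℤ | ∑ i, δ i = s ∧ (∀ l, ∑ i, δ i * (a i l : ℤ) = γ l) ∧
      ∀ i, i ∉ face a w → 0 ≤ δ i}.Finite

/-- LCV: polynomials which vanish on coordinate subspaces -/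
def SLcv : Prop :=
  ∀ (I : Type) [Fintype I] (G : MvPolynomial I ℂ) (t0 : I → ℂ) (V : Set (Set I)),
    (∀ F ∈ V, ∃ M : ℕ, ∀ t : I → ℕ, (∀ i ∈ F, M ≤ t i) → ∀ y : I → ℂ,
      (∀ i ∈ F, y i = t i - t0 i) → (∀ i, i ∉ F → y i = 0) → eval y G = 0) →
    G ∈ Ideal.span {g | ∃ S : Finset I, (∀ F ∈ V, ¬ ((S : Set I) ⊆ F)) ∧ g = ∏ i ∈ S, X i}

/-- LCS: arbitrary coefficients (from LCI, LCF, LCV; with the lemmas of LCR of Newt3) -/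
def SLcs : Prop :=
  ∀ (σ I : Type) [Fintype σ] [Fintype I] [Nonempty I] (k : Type) [Field k] [Algebra k ℂ]
    (a : I → σ → ℕ) (c : I → k), (∀ i, c i ≠ 0) → ∀ (b : Polynomial k) (Γ : Finset (σ → ℤ))
    (r : (σ → ℤ) → MvPolynomial (Option σ) k), CofId a c b Γ r → ∀ α : ℚ,
    b.eval (α : k) ≠ 0 →
    (∀ w : σ → ℕ, Rigid a w → 0 < Nw a w → -α * (Nw a w : ℚ) ≤ ((∑ l, w l : ℕ) : ℚ) →
      ∀ κ ∈ Ker a, (∀ i, i ∉ face a w → κ i = 0) → κ = 0) → Lcl a α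

/-! ### emptiness -/

/-- KLS: emptiness, from `Nfc` (from FNR, EXT; as KLK) -/
def SKls : Prop :=
  ∀ (σ I : Type) [Fintype σ] [Fintype I] [Nonempty I] (a : I → σ → ℕ) (α : ℚ)
    (Wf : Finset σ) (S T Q : Finset I) (t0 : I → ℝ), ∑ i, t0 i = α →
    (∀ l ∈ Wf, ∑ i, (a i l : ℝ) * t0 i = -1) → (∀ i, i ∉ T → t0 i ≤ 0) → Nfc a α T S →
    (∀ i, i ∈ S ∨ i ∈ T → i ∈ Q) → Emp a Wf Q

/-! ### the modules of NEWTON3 with `Lcl` -/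

open Classical in
/-- KPT4 (from KPA KPB KLD KLK TRF of Newt3 and KLS) -/
def SKpt : Prop :=
  ∀ (σ I : Type) [Fintype σ] [Fintype I] [Nonempty I] (a : I → σ → ℕ) (α : ℚ),
    Lcl a α → Simp a α →
    ∀ P : Finset I, (∀ i l, ¬ Val a P i l) → ∀ x : ℝ, 1 < x →
    ∀ p : I → ℂˣ, ‖((pw p fun _ => 1 : ℂˣ) : ℂ)‖ = x ^ (α : ℝ) →
    ∃ h : GR I, evp p h ≠ 0 ∧
      ∀ g : GR I, Pol (Lc a ((x : ℂ)⁻¹) (phz P) (g * (h * yy ((x : ℂ)⁻¹) P)))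

open Classical in
/-- KEY4 -/
def SKey : Prop :=
  ∀ (σ I : Type) [Fintype σ] [Fintype I] [Nonempty I] (a : I → σ → ℕ) (α : ℚ),
    Lcl a α → Simp a α →
    ∀ P : Finset I, (∀ i l, ¬ Val a P i l) → ∀ x : ℝ, 1 < x →
    RegC (x ^ (-(α : ℝ))) (PowerSeries.map Complex.ofRealHom (Ser a x⁻¹ (phi x P Finset.univ)))

/-- PSB4 -/
def SPsb : Prop :=
  ∀ (σ I : Type) [Fintype σ] [Fintype I] [Nonempty I] (a : I → σ → ℕ) (α : ℚ),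
    Lcl a α → Simp a α →
    ∀ x : ℝˣ, 1 < (x : ℝ) → ∀ D : Finset I → ℤ, Inv2 a D →
    (D ∅ = 0 → RegC ((x : ℝ) ^ (-(α : ℝ)))
      (PowerSeries.map (Complex.ofRealHom.comp (ev x)) (Psi a D))) ∧
    (D ∅ = 1 → RegC ((x : ℝ) ^ (-(α : ℝ)))
      (PowerSeries.map (Complex.ofRealHom.comp (ev x)) ((1 - PowerSeries.X) * Psi a D - QQ a)))

/-- ZTB4 -/
def SZtb : Prop :=
  ∀ (k : Type) [Field k] [Algebra k ℂ] (σ I : Type) [Fintype σ] [Fintype I] [Nonempty I]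
    (a : I → σ → ℕ) (c : I → k), (∀ i, c i ≠ 0) → Ndg a c → ∀ B : Set ℚ,
    (∀ α ∈ B, (Simp a α ∧ Lcl a α) ∨
      ∃ (Y : Finset I) (l : I → σ), (∀ i ∈ Y, a i (l i) = 1) ∧ ∀ w, Rigid a w → 0 < Nw a w →
        ((∑ j, w j : ℕ) : ℚ) = -α * (Nw a w : ℚ) → Lab a Y l w) →
    ∃ R : Finset (σ → ℕ), (∀ w ∈ R, Rigid a w ∧ 0 < Nw a w ∧
      -((∑ j, w j : ℕ) : ℚ) / (Nw a w : ℚ) ∉ B) ∧
      Zmot k (poly a c) ∈ RS k ({((-1 : ℤ), (1 : ℕ))} ∪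
        {p | ∃ w ∈ R, p = (-((∑ j, w j : ℕ) : ℤ), Nw a w)})

end Pool.Newt4
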